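import Pool.Agent.helper78.WB.SpecIII

/-!
# wb Part III, row IMG
-/

set_option autoImplicit false

namespace Pool.Agent.WB

open MvPolynomial

private theorem sum_sub_le' (E : Finset (Fin 2 →₀ ℕ)) (m K : ℕ)
    (hE : ∀ k : ℕ, (E.filter (fun μ => μ.degree < k)).card ≤ m * k) :
    ∑ μ ∈ E, (K - μ.degree) ≤ m * (K * (K + 1) / 2) := by
  classical
  have h1 : ∀ μ : Fin 2 →₀ ℕ, K - μ.degree =
      ∑ k ∈ Finset.range (K + 1), (if μ.degree < k then 1 else 0) := by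
    intro μ
    rw [← Finset.card_filter]
    have h2 : (Finset.range (K + 1)).filter (fun k => μ.degree < k) =
        Finset.Ico (μ.degree + 1) (K + 1) := by
      ext k
      simp only [Finset.mem_filter, Finset.mem_range, Finset.mem_Ico]
      omega
    rw [h2, Nat.card_Ico]
    omega
  rw [Finset.sum_congr rfl (fun μ _ => h1 μ), Finset.sum_comm]
  calc ∑ k ∈ Finset.range (K + 1), ∑ μ ∈ E, (if μ.degree < k then 1 else 0)
      ≤ ∑ k ∈ Finset.range (K + 1), m * k := by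
        apply Finset.sum_le_sum
        intro k _
        rw [← Finset.card_filter]
        exact hE k
    _ = m * (K * (K + 1) / 2) := by
        rw [← Finset.mul_sum, Finset.sum_range_id, Nat.add_sub_cancel, mul_comm (K + 1) K]

private theorem unit_or_dvd' (ℓ : ℕ) [Fact ℓ.Prime] (c : ℤ_[ℓ]) :
    IsUnit c ∨ (ℓ : ℤ_[ℓ]) ∣ c := by
  by_cases h : ‖c‖ < 1
  · right
    exact (PadicInt.norm_lt_one_iff_dvd c).mp h
  · left
    rw [PadicInt.isUnit_iff]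
    exact le_antisymm (PadicInt.norm_le_one c) (not_lt.mp h)

private theorem toZModPow_zero_iff' (ℓ : ℕ) [Fact ℓ.Prime] (K : ℕ) (c : ℤ_[ℓ]) :
    PadicInt.toZModPow K c = 0 ↔ (ℓ : ℤ_[ℓ]) ^ K ∣ c := by
  rw [← RingHom.mem_ker, PadicInt.ker_toZModPow, Ideal.mem_span_singleton]

theorem IMG (h1 : LS_stmt) (h2 : LCO_stmt) (h3 : LRED_stmt) : IMG_stmt := by
  classical
  intro ℓ hℓ j C p d m K n hp hC hprop hgood
  obtain ⟨ζ₁, hζ₁, hord⟩ := hgood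
  have hℓ0 : ℓ ≠ 0 := hℓ.out.ne_zero
  -- local coordinates
  have hLC : ∀ ζ : C, ∃ (u : ℤ_[ℓ]) (a : Fin 2 → ℤ_[ℓ]), IsUnit u ∧ (∀ t, (ℓ : ℤ_[ℓ]) ∣ a t) ∧
      ∀ (n : ℕ) (Q : MvPolynomial (Fin 3) ℤ), Q.IsHomogeneous n →
        ((eval ζ.1 Q : ℤ) : ℤ_[ℓ]) =
          u ^ n * eval a (loc j (fun i => ((ζ₁ i : ℤ) : ℤ_[ℓ])) (map (Int.castRingHom ℤ_[ℓ]) Q)) := by
    intro ζ
    exact h2 ℓ j ζ₁ ζ.1 (hC ζ₁ hζ₁).1 (hC ζ.1 ζ.2).1 (fun i i' => hprop ζ.1 ζ.2 ζ₁ hζ₁ i i')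
  choose u a hu ha hQ using hLC
  -- the exponent with a unit coefficient
  have hex : ∃ μ₁ : Fin 2 →₀ ℕ, μ₁.degree < m + 1 ∧
      coeff μ₁ (loc j (redv ℓ ζ₁) (redp ℓ p)) ≠ 0 := by
    by_contra hcon
    push Not at hcon
    exact hord (fun μ hμ => hcon μ hμ)
  obtain ⟨μ₁, hμ₁, hcμ₁⟩ := hex
  have hzero : ∀ ζ : C, eval (a ζ) (loc j (fun i => ((ζ₁ i : ℤ) : ℤ_[ℓ]))
      (map (Int.castRingHom ℤ_[ℓ]) p)) = 0 := by
    intro ζ
    have h4 := hQ ζ d p hp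
    rw [(hC ζ.1 ζ.2).2, Int.cast_zero] at h4
    have h5 : IsUnit (u ζ ^ d) := (hu ζ).pow d
    rcases mul_eq_zero.mp h4.symm with h6 | h6
    · exact absurd h6 h5.ne_zero
    · exact h6
  obtain ⟨E, hE, hrep⟩ := h1 ℤ_[ℓ] (ℓ : ℤ_[ℓ]) (unit_or_dvd' ℓ) C a (fun ζ t => ha ζ t)
    _ hzero m μ₁ (by omega) (fun h => hcμ₁ ((h3 ℓ j ζ₁ p μ₁).mpr h)) K
  haveI hNZ : ∀ k : ℕ, NeZero (ℓ ^ k) := fun k => ⟨pow_ne_zero k hℓ0⟩
  let T : (∀ μ : E, ZMod (ℓ ^ (K - μ.1.degree))) → (C → ZMod (ℓ ^ K)) :=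
    fun b ζ => PadicInt.toZModPow K
      (u ζ ^ n * ∑ μ : E, (((b μ).val : ℕ) : ℤ_[ℓ]) * ∏ t : Fin 2, a ζ t ^ μ.1 t)
  have hsub : valSet n (ℓ ^ K) C ⊆ T '' Set.univ := by
    rintro g ⟨Q, hQn, hg⟩
    obtain ⟨c, hc⟩ := hrep (loc j (fun i => ((ζ₁ i : ℤ) : ℤ_[ℓ])) (map (Int.castRingHom ℤ_[ℓ]) Q))
    refine ⟨fun μ => PadicInt.toZModPow (K - μ.1.degree) (c μ.1), Set.mem_univ _, ?_⟩
    funext ζ
    rw [hg ζ, ← map_intCast (PadicInt.toZModPow (p := ℓ) K) (eval ζ.1 Q : ℤ), hQ ζ n Q hQn]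
    change PadicInt.toZModPow K _ = _
    rw [← sub_eq_zero, ← map_sub, toZModPow_zero_iff', ← mul_sub]
    apply Dvd.dvd.mul_left
    have h7 := hc ζ
    rw [← Finset.sum_coe_sort E] at h7
    have h8 : (ℓ : ℤ_[ℓ]) ^ K ∣ ∑ μ : E,
        (((((PadicInt.toZModPow (K - μ.1.degree) (c μ.1)).val : ℕ) : ℤ_[ℓ]) - c μ.1) *
          ∏ t : Fin 2, a ζ t ^ μ.1 t) := by
      apply Finset.dvd_sum
      intro μ _
      have h9 : (ℓ : ℤ_[ℓ]) ^ (K - μ.1.degree) ∣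
          ((((PadicInt.toZModPow (K - μ.1.degree) (c μ.1)).val : ℕ) : ℤ_[ℓ]) - c μ.1) := by
        rw [← toZModPow_zero_iff', map_sub, map_natCast, ZMod.natCast_zmod_val, sub_self]
      have h10 : (ℓ : ℤ_[ℓ]) ^ (μ.1.degree) ∣ ∏ t : Fin 2, a ζ t ^ μ.1 t := by
        rw [Finsupp.degree_eq_sum, ← Finset.prod_pow_eq_pow_sum]
        apply Finset.prod_dvd_prod_of_dvd
        intro t _
        exact pow_dvd_pow_of_dvd (ha ζ t) _
      have h11 := mul_dvd_mul h9 h10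
      rw [← pow_add] at h11
      exact dvd_trans (pow_dvd_pow _ (by omega)) h11
    have h12 := dvd_sub h8 h7
    refine dvd_trans h12 (dvd_of_eq ?_)
    simp only [sub_mul, Finset.sum_sub_distrib]
    ring
  have hTfin : (T '' Set.univ).Finite := Set.toFinite _
  calc (valSet n (ℓ ^ K) C).ncard ≤ (T '' Set.univ).ncard := Set.ncard_le_ncard hsub hTfin
    _ ≤ (Set.univ : Set (∀ μ : E, ZMod (ℓ ^ (K - μ.1.degree)))).ncard :=
        Set.ncard_image_le Set.finite_univ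
    _ = ℓ ^ (∑ μ ∈ E, (K - μ.degree)) := by
        rw [Set.ncard_univ, Nat.card_pi]
        simp only [Nat.card_zmod]
        rw [Finset.prod_pow_eq_pow_sum, ← Finset.sum_coe_sort E]
    _ ≤ ℓ ^ (m * (K * (K + 1) / 2)) :=
        Nat.pow_le_pow_right (Nat.pos_of_ne_zero hℓ0) (sum_sub_le' E m K hE)

end Pool.Agent.WB
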