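import Pool.Agent.helper78.WB.SpecIII

/-!
# wb Part III, row ORD
-/

set_option autoImplicit false

namespace Pool.Agent.WB

open MvPolynomial

private theorem ordGE_mul' {K : Type} [Field K] (a b : ℕ) (f g : MvPolynomial (Fin 2) K)
    (hf : ordGE a f) (hg : ordGE b g) : ordGE (a + b) (f * g) := by
  classical
  intro μ hμ
  rw [coeff_mul]
  apply Finset.sum_eq_zero
  rintro ⟨ν, ν'⟩ hν
  rw [Finset.HasAntidiagonal.mem_antidiagonal] at hν
  simp only at hν ⊢
  have hd : ν.degree + ν'.degree = μ.degree := by
    rw [← hν, map_add]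
  by_cases h : ν.degree < a
  · rw [hf ν h, zero_mul]
  · have h2 : ν'.degree < b := by omega
    rw [hg ν' h2, mul_zero]

private theorem ordGE_pow' {K : Type} [Field K] (f : MvPolynomial (Fin 2) K)
    (hf : ordGE 1 f) (m : ℕ) : ordGE m (f ^ m) := by
  induction m with
  | zero => intro μ hμ; exact absurd hμ (Nat.not_lt_zero _)
  | succ n ih =>
    rw [pow_succ]
    exact ordGE_mul' n 1 _ _ ih hf

theorem ORD : ORD_stmt := by
  classical
  intro K _ m
  refine ⟨?_, ?_, ?_, ?_⟩
  · intro f g hf hg μ hμ
    rw [coeff_add, hf μ hμ, hg μ hμ, add_zero]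
  · intro f g hf
    have h0 : ordGE 0 g := fun μ hμ => absurd hμ (Nat.not_lt_zero _)
    exact ordGE_mul' m 0 f g hf h0
  · intro f hf
    exact ordGE_pow' f hf m
  · intro L h hL hLh
    have key : ∀ n : ℕ, ∀ μ : Fin 2 →₀ ℕ, μ.degree = n → n < m → coeff μ h = 0 := by
      intro n
      induction n using Nat.strong_induction_on with
      | _ n ih =>
        intro μ hμ hn
        have h1 := hLh μ (by omega)
        rw [coeff_mul] at h1
        rw [← Finset.add_sum_erase _ _ (Finset.HasAntidiagonal.mem_antidiagonal.mpr (zero_add μ) :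
          ((0 : Fin 2 →₀ ℕ), μ) ∈ Finset.HasAntidiagonal.antidiagonal μ)] at h1
        have h2 : ∑ x ∈ (Finset.HasAntidiagonal.antidiagonal μ).erase ((0 : Fin 2 →₀ ℕ), μ),
            coeff x.1 L * coeff x.2 h = 0 := by
          apply Finset.sum_eq_zero
          rintro ⟨ν, ν'⟩ hν
          rw [Finset.mem_erase, Finset.HasAntidiagonal.mem_antidiagonal] at hν
          obtain ⟨hne, hs⟩ := hν
          simp only at hs ⊢
          have hd : ν.degree + ν'.degree = μ.degree := by
            rw [← hs, map_add]
          have hν0 : ν ≠ 0 := by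
            intro h0
            apply hne
            rw [h0, zero_add] at hs
            rw [h0, hs]
          have hνd : ν.degree ≠ 0 := by
            intro h0
            exact hν0 ((Finsupp.degree_eq_zero_iff ν).mp h0)
          rw [ih ν'.degree (by omega) ν' rfl (by omega), mul_zero]
        rw [h2, add_zero] at h1
        simpa [hL] using h1
    intro μ hμ
    exact key μ.degree μ rfl hμ

end Pool.Agent.WB
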