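import Pool.Agent.helper78.WB.SpecIII

/-!
# wb Part III, row PIG
-/

set_option autoImplicit false

namespace Pool.Agent.WB

open MvPolynomial

private theorem s3_pos' (n : ℕ) : 0 < s3 n := by
  unfold s3
  have : 2 ≤ (n + 1) * (n + 2) := by nlinarith
  omega

theorem PIG (h1 : DIM3_stmt) : PIG_stmt := by
  classical
  intro n q H C hq hlt
  haveI : NeZero q := ⟨hq.ne'⟩
  have hcard := h1.1 n
  have hs : 0 < s3 n := s3_pos' n
  haveI hfin : Finite {μ : Fin 3 →₀ ℕ // μ.degree = n} :=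
    Nat.finite_of_card_ne_zero (by rw [hcard]; omega)
  haveI := Fintype.ofFinite {μ : Fin 3 →₀ ℕ // μ.degree = n}
  let F : ({μ : Fin 3 →₀ ℕ // μ.degree = n} → Fin (H + 1)) → MvPolynomial (Fin 3) ℤ :=
    fun c => ∑ μ, monomial μ.1 (((c μ : Fin (H + 1)) : ℕ) : ℤ)
  have hFh : ∀ c, (F c).IsHomogeneous n := by
    intro c
    apply IsHomogeneous.sum
    intro μ _
    apply isHomogeneous_monomial
    exact μ.2
  have hFc : ∀ c (μ : {μ : Fin 3 →₀ ℕ // μ.degree = n}),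
      coeff μ.1 (F c) = (((c μ : Fin (H + 1)) : ℕ) : ℤ) := by
    intro c μ
    change coeff μ.1 (∑ ν, monomial ν.1 (((c ν : Fin (H + 1)) : ℕ) : ℤ)) = _
    rw [coeff_sum, Finset.sum_eq_single μ]
    · rw [coeff_monomial, if_pos rfl]
    · intro ν _ hν
      rw [coeff_monomial, if_neg]
      intro h
      exact hν (Subtype.ext h)
    · intro h
      exact absurd (Finset.mem_univ _) h
  have hFc0 : ∀ c (μ : Fin 3 →₀ ℕ), μ.degree ≠ n → coeff μ (F c) = 0 := by
    intro c μ hμ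
    change coeff μ (∑ ν, monomial ν.1 (((c ν : Fin (H + 1)) : ℕ) : ℤ)) = _
    rw [coeff_sum]
    apply Finset.sum_eq_zero
    intro ν _
    rw [coeff_monomial, if_neg]
    intro h
    exact hμ (h ▸ ν.2)
  let Φ : ({μ : Fin 3 →₀ ℕ // μ.degree = n} → Fin (H + 1)) → valSet n q C :=
    fun c => ⟨fun ζ => ((eval ζ.1 (F c) : ℤ) : ZMod q), F c, hFh c, fun ζ => rfl⟩
  have hni : ¬ Function.Injective Φ := by
    intro hinj
    have h2 := Nat.card_le_card_of_injective Φ hinj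
    have h3 : Nat.card ({μ : Fin 3 →₀ ℕ // μ.degree = n} → Fin (H + 1)) = (H + 1) ^ s3 n := by
      rw [Nat.card_fun, hcard, Nat.card_eq_fintype_card, Fintype.card_fin]
    rw [h3, Nat.card_coe_set_eq] at h2
    omega
  have hex : ∃ c c', Φ c = Φ c' ∧ c ≠ c' := by
    by_contra hcon
    push Not at hcon
    exact hni (fun c c' h => hcon c c' h)
  obtain ⟨c, c', hΦ, hne⟩ := hex
  refine ⟨F c - F c', ?_, ?_, ?_, ?_⟩
  · intro h0
    apply hne
    funext μ
    have h2 : coeff μ.1 (F c - F c') = 0 := by rw [h0, coeff_zero]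
    rw [coeff_sub, hFc, hFc] at h2
    apply Fin.ext
    omega
  · exact (hFh c).sub (hFh c')
  · intro μ
    rw [coeff_sub]
    by_cases hμ : μ.degree = n
    · rw [hFc c ⟨μ, hμ⟩, hFc c' ⟨μ, hμ⟩]
      have h4 := (c ⟨μ, hμ⟩).2
      have h5 := (c' ⟨μ, hμ⟩).2
      rw [abs_le]
      constructor <;> omega
    · rw [hFc0 c μ hμ, hFc0 c' μ hμ, sub_zero, abs_zero]
      exact Int.natCast_nonneg H
  · intro ζ hζ
    have h6 := congrFun (congrArg Subtype.val hΦ) ⟨ζ, hζ⟩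
    have h7 : ((eval ζ (F c) : ℤ) : ZMod q) = ((eval ζ (F c') : ℤ) : ZMod q) := h6
    rw [map_sub, ← ZMod.intCast_zmod_eq_zero_iff_dvd, Int.cast_sub, h7, sub_self]

end Pool.Agent.WB
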